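import Pool.Agent.H23.DF.TargetsG
import Pool.Agent.H40.DM.PS

/-!
# (PS) the sums over the dual lattice, correlations with bounded sums over boxes
-/

set_option autoImplicit false

open NumberField NumberField.InfinitePlace NumberField.Units
  NumberField.Units.dirichletUnitTheorem MeasureTheory Set Filter Complex
open scoped nonZeroDivisors ENNReal

namespace Pool.Agent.H3.DF.PS

open Pool.Agent.H25.HK Pool.Agent.H23.LB Pool.Agent.H23.LC
open Pool.Agent.H28.RC (Rep ft idl)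
open Pool.Agent.H29.DW (dg Rl lf wv Pos Wg cpar Ci om zs rv Wt dg_rv Rl_wv wv_zero norm_wv
  card_places_le mult_pos')
open Pool.Agent.H31.SW (EE itg FF HD DB DS dif Pf GG G2 DD PP pF dK pz ps Tf WG)
open Pool.Agent.H27.TM
open Pool.Agent.H63.TMB.PS (Am_mono norm_tsum_le decay prod_dg)
open Pool.Agent.H23.DM (Mz Nz)
open Pool.Agent.H40.DM.PS (poisson Nf_pos)
open Pool.Agent.H23.DF

/-- a power of two near `1 + t` -/
theorem two_near (t : ℝ) (ht : 0 ≤ t) : ∃ j : ℕ, t ≤ 2 ^ j ∧ (2 : ℝ) ^ j ≤ 2 * (1 + t) := by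
  classical
  obtain ⟨m, hm⟩ := pow_unbounded_of_one_lt t (one_lt_two : (1 : ℝ) < 2)
  have hex : ∃ j : ℕ, t ≤ 2 ^ j := ⟨m, hm.le⟩
  refine ⟨Nat.find hex, Nat.find_spec hex, ?_⟩
  rcases Nat.eq_zero_or_pos (Nat.find hex) with h0 | h0
  · rw [h0, pow_zero]
    linarith
  · have h1 := Nat.find_min hex (Nat.sub_lt h0 one_pos)
    have h2 : (2 : ℝ) ^ (Nat.find hex) = 2 * 2 ^ (Nat.find hex - 1) := by
      rw [← pow_succ', Nat.sub_add_cancel h0]
    rw [h2]
    have h3 := not_le.1 h1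
    linarith

theorem weight_le {t : ℝ} (ht : 0 ≤ t) {j N : ℕ} (h : (2 : ℝ) ^ j ≤ 2 * (1 + t)) :
    (1 + t) ^ (-(N : ℝ)) ≤ 2 ^ N * ((((2 : ℝ) ^ j)⁻¹) ^ N) := by
  have h1 : ((2 : ℝ) ^ j) ^ N ≤ (2 * (1 + t)) ^ N := pow_le_pow_left₀ (by positivity) h N
  rw [mul_pow] at h1
  rw [Real.rpow_neg (by positivity), Real.rpow_natCast, inv_pow, ← div_eq_mul_inv,
    inv_eq_one_div, div_le_div_iff₀ (by positivity) (by positivity), one_mul]
  exact h1

theorem geo (m N R : ℕ) (h : m + 1 ≤ N) :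
    ∑ j ∈ Finset.range R, 2 ^ N * ((((2 : ℝ) ^ j)⁻¹) ^ N) * ((2 : ℝ) ^ j) ^ m ≤ 2 ^ (N + 1) := by
  have h1 : ∀ j ∈ Finset.range R, 2 ^ N * ((((2 : ℝ) ^ j)⁻¹) ^ N) * ((2 : ℝ) ^ j) ^ m ≤
      2 ^ N * (1 / 2) ^ j := by
    intro j _
    rw [mul_assoc]
    refine mul_le_mul_of_nonneg_left ?_ (by positivity)
    have h2 : ((2 : ℝ) ^ j) ^ (m + 1) ≤ ((2 : ℝ) ^ j) ^ N :=
      pow_le_pow_right₀ (one_le_pow₀ one_le_two) h
    rw [one_div, inv_pow, inv_pow, ← div_eq_inv_mul, inv_eq_one_div,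
      div_le_div_iff₀ (by positivity) (by positivity), one_mul, ← pow_succ]
    exact h2
  refine (Finset.sum_le_sum h1).trans ?_
  rw [← Finset.mul_sum, pow_succ]
  refine mul_le_mul_of_nonneg_left ?_ (by positivity)
  have h3 : Summable (fun j : ℕ => ((1 : ℝ) / 2) ^ j) := summable_geometric_two
  have h4 := h3.sum_le_tsum (Finset.range R) (fun j _ => by positivity)
  rwa [tsum_geometric_two] at h4

/-- sums with weights over sets of points with bounded sums over boxes -/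
theorem box_sum {K : Type} [Field K] [NumberField K] (L : K → Prop) (f : K → ℝ)
    (hf : ∀ x, 0 ≤ f x) {X : ℝ} (hX : 0 ≤ X) (b : InfinitePlace K → ℝ) (hb : ∀ v, 0 < b v)
    {N : ℕ} (hN : 3 ≤ N)
    (h : ∀ β : InfinitePlace K → ℝ, (∀ v, 0 < β v) → ∀ S : Finset K,
      (∀ x ∈ S, L x ∧ ∀ v : InfinitePlace K, v x ≤ β v) → ∑ x ∈ S, f x ≤ X * PP β)
    (S : Finset K) (hS : ∀ x ∈ S, L x) :
    ∑ x ∈ S, f x * ∏ v : InfinitePlace K, (1 + v x / b v) ^ (-(N : ℝ)) ≤
      (2 ^ (N + 1)) ^ Fintype.card (InfinitePlace K) * (X * PP b) := by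
  classical
  have ht : ∀ (x : K) (v : InfinitePlace K), 0 ≤ v x / b v := fun x v =>
    div_nonneg (apply_nonneg v x) (hb v).le
  choose j hj1 hj2 using fun (x : K) (v : InfinitePlace K) => two_near (v x / b v) (ht x v)
  obtain ⟨R, hR⟩ : ∃ R : ℕ, ∀ x ∈ S, ∀ v, j x v < R := by
    refine ⟨S.sup (fun x => Finset.univ.sup (j x)) + 1, fun x hx v => ?_⟩
    have h1 : j x v ≤ Finset.univ.sup (j x) := Finset.le_sup (Finset.mem_univ v)
    have h2 : Finset.univ.sup (j x) ≤ S.sup (fun x => Finset.univ.sup (j x)) :=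
      Finset.le_sup (f := fun x => Finset.univ.sup (j x)) hx
    omega
  obtain ⟨P, hP⟩ : ∃ P, P = Fintype.piFinset (fun _ : InfinitePlace K => Finset.range R) :=
    ⟨_, rfl⟩
  obtain ⟨W, hW⟩ : ∃ W : (InfinitePlace K → ℕ) → ℝ, W = fun p =>
      ∏ v : InfinitePlace K, (2 ^ N * ((((2 : ℝ) ^ p v)⁻¹) ^ N)) := ⟨_, rfl⟩
  have W0 : ∀ p, 0 ≤ W p := by
    intro p
    rw [hW]
    exact Finset.prod_nonneg fun v _ => by positivity
  have s1 : ∀ x ∈ S, f x * ∏ v : InfinitePlace K, (1 + v x / b v) ^ (-(N : ℝ)) ≤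
      ∑ p ∈ P, if ∀ v : InfinitePlace K, v x ≤ 2 ^ p v * b v then W p * f x else 0 := by
    intro x hx
    have h1 : j x ∈ P := by
      rw [hP, Fintype.mem_piFinset]
      exact fun v => Finset.mem_range.2 (hR x hx v)
    have h2 : ∀ v : InfinitePlace K, v x ≤ 2 ^ j x v * b v := by
      intro v
      have := hj1 x v
      rwa [div_le_iff₀ (hb v)] at this
    have h3 : (if ∀ v : InfinitePlace K, v x ≤ 2 ^ j x v * b v then W (j x) * f x else 0) ≤
        ∑ p ∈ P, if ∀ v : InfinitePlace K, v x ≤ 2 ^ p v * b v then W p * f x else 0 := by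
      refine Finset.single_le_sum (f := fun p : InfinitePlace K → ℕ =>
        if ∀ v : InfinitePlace K, v x ≤ 2 ^ p v * b v then W p * f x else 0) ?_ h1
      intro p _
      show (0 : ℝ) ≤ if ∀ v : InfinitePlace K, v x ≤ 2 ^ p v * b v then W p * f x else 0
      split_ifs
      · exact mul_nonneg (W0 p) (hf x)
      · exact le_rfl
    rw [if_pos h2] at h3
    refine le_trans ?_ h3
    rw [mul_comm (W (j x))]
    refine mul_le_mul_of_nonneg_left ?_ (hf x)
    rw [hW]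
    refine Finset.prod_le_prod (fun v _ => ?_) fun v _ => weight_le (ht x v) (hj2 x v)
    exact Real.rpow_nonneg (by have := ht x v; positivity) _
  refine (Finset.sum_le_sum s1).trans ?_
  rw [Finset.sum_comm]
  have s2 : ∀ p ∈ P, ∑ x ∈ S, (if ∀ v : InfinitePlace K, v x ≤ 2 ^ p v * b v then
      W p * f x else 0) ≤ (X * PP b) * ∏ v : InfinitePlace K,
        (2 ^ N * ((((2 : ℝ) ^ p v)⁻¹) ^ N) * ((2 : ℝ) ^ p v) ^ v.mult) := by
    intro p _
    rw [← Finset.sum_filter, ← Finset.mul_sum]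
    have h1 := h (fun v => 2 ^ p v * b v) (fun v => by have := hb v; positivity)
      (S.filter fun x => ∀ v : InfinitePlace K, v x ≤ 2 ^ p v * b v) (by
        intro x hx
        rw [Finset.mem_filter] at hx
        exact ⟨hS x hx.1, hx.2⟩)
    refine (mul_le_mul_of_nonneg_left h1 (W0 p)).trans (le_of_eq ?_)
    have h2 : PP (fun v => 2 ^ p v * b v) =
        (∏ v : InfinitePlace K, ((2 : ℝ) ^ p v) ^ v.mult) * PP b := by
      unfold PP
      rw [← Finset.prod_mul_distrib]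
      exact Finset.prod_congr rfl fun v _ => mul_pow _ _ _
    rw [h2, Finset.prod_mul_distrib, hW]
    ring
  refine (Finset.sum_le_sum s2).trans ?_
  rw [← Finset.mul_sum, mul_comm]
  have hPb : 0 ≤ X * PP b := mul_nonneg hX (Finset.prod_nonneg fun v _ => by
    have := hb v
    positivity)
  refine mul_le_mul_of_nonneg_right ?_ hPb
  rw [hP, ← Finset.prod_univ_sum (fun _ : InfinitePlace K => Finset.range R)
    (fun (v : InfinitePlace K) (j : ℕ) =>
      2 ^ N * ((((2 : ℝ) ^ j)⁻¹) ^ N) * ((2 : ℝ) ^ j) ^ v.mult)]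
  have h5 : ∏ v : InfinitePlace K, ∑ j ∈ Finset.range R,
      2 ^ N * ((((2 : ℝ) ^ j)⁻¹) ^ N) * ((2 : ℝ) ^ j) ^ v.mult ≤
      ∏ _v : InfinitePlace K, (2 : ℝ) ^ (N + 1) := by
    refine Finset.prod_le_prod (fun v _ => Finset.sum_nonneg fun j _ => by positivity)
      fun v _ => geo _ _ _ ?_
    have := (mult_pos' v).2
    omega
  refine h5.trans (le_of_eq ?_)
  rw [Finset.prod_const, Finset.card_univ]

/-- the weighted series over the nonzero lattice points -/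
theorem box_tsum {K : Type} [Field K] [NumberField K] {n N : ℕ}
    (hn : Fintype.card (InfinitePlace K) ≤ n) (L : FI K) (f : K → ℝ) (hf : ∀ x, 0 ≤ f x) {X : ℝ}
    (hX : 0 ≤ X) (b : InfinitePlace K → ℝ) (hb : ∀ v, 0 < b v) (hN : 3 ≤ N)
    (h : ∀ β : InfinitePlace K → ℝ, (∀ v, 0 < β v) → ∀ S : Finset K,
      (∀ x ∈ S, x ∈ L ∧ x ≠ 0 ∧ ∀ v : InfinitePlace K, ‖v.embedding x‖ ≤ β v) →
        ∑ x ∈ S, f x ≤ X * PP β) :
    Summable (fun x : {x : K // x ∈ L ∧ x ≠ 0} =>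
      f x.1 * ∏ v : InfinitePlace K, (1 + v x.1 / b v) ^ (-(N : ℝ))) ∧
    ∑' x : {x : K // x ∈ L ∧ x ≠ 0}, f x.1 * ∏ v : InfinitePlace K,
      (1 + v x.1 / b v) ^ (-(N : ℝ)) ≤ (2 ^ (N + 1)) ^ n * (X * PP b) := by
  have hPb : 0 ≤ X * PP b := mul_nonneg hX (Finset.prod_nonneg fun v _ => by
    have := hb v
    positivity)
  have h0 : ∀ x : {x : K // x ∈ L ∧ x ≠ 0},
      0 ≤ f x.1 * ∏ v : InfinitePlace K, (1 + v x.1 / b v) ^ (-(N : ℝ)) := by
    intro x
    refine mul_nonneg (hf x.1) (Finset.prod_nonneg fun v _ => ?_)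
    have h1 : 0 ≤ v x.1 / b v := div_nonneg (apply_nonneg v x.1) (hb v).le
    positivity
  have h1 : ∀ S : Finset {x : K // x ∈ L ∧ x ≠ 0}, ∑ x ∈ S, f x.1 * ∏ v : InfinitePlace K,
      (1 + v x.1 / b v) ^ (-(N : ℝ)) ≤ (2 ^ (N + 1)) ^ n * (X * PP b) := by
    intro S
    have h2 := box_sum (fun x => x ∈ L ∧ x ≠ 0) f hf hX b hb hN (fun β hβ S hS =>
      h β hβ S fun x hx => ⟨(hS x hx).1.1, (hS x hx).1.2, fun v => by
        rw [InfinitePlace.norm_embedding_eq]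
        exact (hS x hx).2 v⟩) (S.map (Function.Embedding.subtype _)) (by
        intro x hx
        rw [Finset.mem_map] at hx
        obtain ⟨y, -, rfl⟩ := hx
        exact y.2)
    rw [Finset.sum_map] at h2
    refine h2.trans (mul_le_mul_of_nonneg_right ?_ hPb)
    exact pow_le_pow_right₀ (one_le_pow₀ one_le_two) hn
  have h2 := summable_of_sum_le h0 h1
  exact ⟨h2, h2.tsum_le_of_sum_le h1⟩

/-- the final computation -/
theorem final {S T a X Y D Nh Nf w X₀ Mn Z : ℝ} {n : ℕ} (hT : 0 ≤ T) (ha : 0 < a)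
    (hX : 0 < X) (hY : 0 < Y) (hD : 0 < D) (hNh : 0 < Nh) (hNf : 0 < Nf) (hw : 0 ≤ w)
    (hX₀ : 0 ≤ X₀) (hMn : 0 ≤ Mn) (hZ : 1 ≤ Z)
    (h : Nf / (a * 2 ^ n) / (Nh * D) * S ≤ w * (Mn * T) + Mn * X ^ (-(1 / 2) : ℝ) *
      (Z * (X₀ * (X / Y / a)))) :
    S ≤ Mn * 2 ^ n * Z * (D * (Nh / Nf) * (w * (a * T) +
      X₀ * (X ^ (1 / 2 : ℝ) / Y))) := by
  have hXX : X ^ (-(1 / 2) : ℝ) * X = X ^ (1 / 2 : ℝ) := by
    rw [← Real.rpow_add_one hX.ne']
    norm_num
  have h1 : S = (a * 2 ^ n * D * Nh / Nf) * (Nf / (a * 2 ^ n) / (Nh * D) * S) := by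
    field_simp
  have h2 : S ≤ (a * 2 ^ n * D * Nh / Nf) * (w * (Mn * T) + Mn * X ^ (-(1 / 2) : ℝ) *
      (Z * (X₀ * (X / Y / a)))) := by
    calc S = (a * 2 ^ n * D * Nh / Nf) * (Nf / (a * 2 ^ n) / (Nh * D) * S) := h1
      _ ≤ _ := mul_le_mul_of_nonneg_left h (by positivity)
  have h3 : (a * 2 ^ n * D * Nh / Nf) * (w * (Mn * T) + Mn * X ^ (-(1 / 2) : ℝ) *
      (Z * (X₀ * (X / Y / a)))) =
      Mn * 2 ^ n * (D * (Nh / Nf) * (w * (a * T) + Z * (X₀ * (X ^ (1 / 2 : ℝ) / Y)))) := by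
    rw [← hXX]
    field_simp
  rw [h3] at h2
  have p1 : 0 ≤ w * (a * T) := by positivity
  have p2 : 0 ≤ X₀ * (X ^ (1 / 2 : ℝ) / Y) := by positivity
  calc S ≤ Mn * 2 ^ n * (D * (Nh / Nf) * (w * (a * T) + Z * (X₀ * (X ^ (1 / 2 : ℝ) / Y)))) := h2
    _ ≤ Mn * 2 ^ n * (D * (Nh / Nf) * (Z * (w * (a * T) + X₀ * (X ^ (1 / 2 : ℝ) / Y)))) := by
        refine mul_le_mul_of_nonneg_left (mul_le_mul_of_nonneg_left ?_ (by positivity))
          (by positivity)
        nlinarith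
    _ = _ := by ring

/-- (PS) -/
theorem pf_PS (hPO : Pool.Agent.H31.SX.X_PO) (hCF : M_CF) (hCB : M_CB) (hE1 : M_E1)
    (hLN : F_LN) (hRX : Pool.Agent.H28.RC.T_RX) : F_PS := by
  classical
  intro n k C₁ hn0 hk hC₁
  obtain ⟨B, hB0, hB⟩ := hCB k
  obtain ⟨M, hM⟩ : ∃ M, M = max 1 (B * C₁ ^ 2) := ⟨_, rfl⟩
  have M1 : 1 ≤ M := by rw [hM]; exact le_max_left _ _
  have MB : B * C₁ ^ 2 ≤ M := by rw [hM]; exact le_max_right _ _
  refine ⟨M ^ n * 2 ^ n * (2 ^ (k + 1)) ^ n, by positivity, ?_⟩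
  intro K _ _ hn H F e₁ e₂ cc w X D α τ c c' Q hH hF hCo hX he hα hc hc' hQ
  have α0 : ∀ v, 0 < α v := fun v => (hα v).1
  have hP : Pos (fun _ : InfinitePlace K => (1 : ℂ)) :=
    ⟨fun v => norm_one, fun v _ => Complex.one_im⟩
  obtain ⟨hMz, -, hDD, -, -, -⟩ := hLN K H F hH hF
  have hcard : Fintype.card (InfinitePlace K) ≤ n := card_places_le hn
  have htH : (⊤ : Ideal (𝓞 K)) ⊓ H = H := top_inf_eq H
  have hNN : Nz K ⊤ H F = Nh H F := by
    unfold Nz Nh
    rw [htH]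
  obtain ⟨X₂, hX₂, -⟩ := hRX K H (Mz K F) hH hMz
  have h1 := poisson hPO hCF hE1 hC₁ (by rw [hn]; exact hk) α c c' Q hα hc.real hc'.real hQ
    ⊤ F H X₂ cc e₁ e₂ (by rw [htH]; exact hH) hMz (by rw [htH]; exact hX₂)
    (by rw [htH]; exact hCo.per) (by rw [hNN]; exact hCo.ft X₂ hX₂)
  have hD1 : DD (Mz K F) (fun v => 2 * Real.log (α v)) = Nf K F / (PP α * 2 ^ n) := by
    rw [hDD, hn]
    have h1 : Real.exp (-(∑ v : InfinitePlace K, (v.mult : ℝ) * (2 * Real.log (α v))) / 2) =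
        (PP α)⁻¹ := by
      have h2 : -(∑ v : InfinitePlace K, (v.mult : ℝ) * (2 * Real.log (α v))) / 2 =
          -∑ v : InfinitePlace K, (v.mult : ℝ) * Real.log (α v) := by
        rw [← Finset.sum_neg_distrib, ← Finset.sum_neg_distrib, Finset.sum_div]
        refine Finset.sum_congr rfl fun v _ => ?_
        ring
      rw [h2, Real.exp_neg, Real.exp_sum]
      unfold PP
      congr 1
      refine Finset.prod_congr rfl fun v _ => ?_
      rw [mul_comm, Real.exp_mul, Real.exp_log (α0 v), Real.rpow_natCast]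
    rw [h1]
    field_simp
  rw [hNN, htH, hD1] at h1
  have th0 : ∀ v, 0 < th1 α c c' v := by
    intro v
    unfold th1
    have := α0 v
    positivity
  have bt0 : ∀ v, 0 < bt α τ v := fun v => lt_of_lt_of_le one_pos (le_max_left _ _)
  have PPα : 0 < PP α := Finset.prod_pos fun v _ => pow_pos (α0 v) _
  have PPt : 0 < PP (th1 α c c') := Finset.prod_pos fun v _ => pow_pos (th0 v) _
  have PPb : 0 < PP (bt α τ) := Finset.prod_pos fun v _ => pow_pos (bt0 v) _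
  have dK0 : 0 < dK K := by
    unfold dK
    have : (discr K : ℝ) ≠ 0 := by exact_mod_cast discr_ne_zero K
    positivity
  have NF0 := Nf_pos hF
  have NH0 := Nf_pos hH
  -- the bounds
  have hloc : ∀ v u, Rl (rv v) u → ‖Cr (rv v) (α v) (c v) (c' v) (Q v) u‖ ≤
      M * (th1 α c c' v ^ (-(dg (rv v) : ℝ) / 2) *
        (1 + ‖u‖ / (th1 α c c' v / bt α τ v)) ^ (-(k : ℝ))) := by
    intro v u hu
    have b1 := (hB (rv v) (α v) (τ v) (c v) (c' v) u (Q v) C₁ (α0 v) (hα v).2 (hc.one v)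
      (hc.low v) (hc.upp v) (hc.real v) (hc'.real v) hu hC₁ (hQ v)).1
    have b2 : max 1 (α v * τ v) * ‖u‖ / (1 + α v * ‖c v - c' v‖) =
        ‖u‖ / (th1 α c c' v / bt α τ v) := by
      have := th0 v
      have := bt0 v
      unfold th1 bt at *
      field_simp
    rw [b2] at b1
    refine b1.trans ?_
    have := th0 v
    have := bt0 v
    rw [mul_assoc]
    refine mul_le_mul_of_nonneg_right MB ?_
    unfold th1 at *
    positivity
  have hloc0 : ∀ v, ‖Cr (rv v) (α v) (c v) (c' v) (Q v) 0‖ ≤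
      M * th1 α c c' v ^ (-(k : ℝ)) := by
    intro v
    have b1 := (hB (rv v) (α v) (τ v) (c v) (c' v) 0 (Q v) C₁ (α0 v) (hα v).2 (hc.one v)
      (hc.low v) (hc.upp v) (hc.real v) (hc'.real v) (Pool.Agent.H31.SW.Rl_zero _) hC₁
      (hQ v)).2
    refine b1.trans ?_
    have := th0 v
    refine mul_le_mul_of_nonneg_right MB ?_
    unfold th1 at *
    positivity
  have hMn : ∏ _v : InfinitePlace K, M ≤ M ^ n := by
    rw [Finset.prod_const]
    exact pow_le_pow_right₀ M1 hcard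
  obtain ⟨T, hT⟩ : ∃ T : ℝ, T = ∏ v : InfinitePlace K, th1 α c c' v ^ (-(k : ℝ)) := ⟨_, rfl⟩
  have T0 : 0 ≤ T := by
    rw [hT]
    exact Finset.prod_nonneg fun v _ => by have := th0 v; positivity
  have w0 : 0 ≤ w := (norm_nonneg _).trans hCo.zero
  have hb0 : ‖cc 0 * pF (fun v => Cr (rv v) (α v) (c v) (c' v) (Q v))
      (fun v => 2 * Real.log (α v)) (fun _ => 1) (0 : K)‖ ≤ w * (M ^ n * T) := by
    rw [norm_mul]
    have h3 : ‖pF (fun v => Cr (rv v) (α v) (c v) (c' v) (Q v))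
        (fun v => 2 * Real.log (α v)) (fun _ => 1) (0 : K)‖ ≤ M ^ n * T := by
      unfold pF
      rw [norm_prod]
      calc ∏ v : InfinitePlace K, ‖Cr (rv v) (α v) (c v) (c' v) (Q v)
            (wv v (0 : K) (fun v => 2 * Real.log (α v)) (fun _ => 1))‖ ≤
            ∏ v : InfinitePlace K, M * th1 α c c' v ^ (-(k : ℝ)) := by
              refine Finset.prod_le_prod (fun v _ => norm_nonneg _) fun v _ => ?_
              rw [wv_zero]
              exact hloc0 v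
        _ = (∏ _v : InfinitePlace K, M) * T := by
            rw [hT]
            exact Finset.prod_mul_distrib
        _ ≤ _ := mul_le_mul_of_nonneg_right hMn T0
    exact mul_le_mul hCo.zero h3 (norm_nonneg _) w0
  obtain ⟨b, hb⟩ : ∃ b : InfinitePlace K → ℝ, b = fun v => th1 α c c' v / bt α τ v / α v :=
    ⟨_, rfl⟩
  have b0 : ∀ v, 0 < b v := by
    intro v
    rw [hb]
    exact div_pos (div_pos (th0 v) (bt0 v)) (α0 v)
  have hwv : ∀ (v : InfinitePlace K) (x : K),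
      ‖wv v x (fun v => 2 * Real.log (α v)) (fun _ => 1)‖ / (th1 α c c' v / bt α τ v) =
        v x / b v := by
    intro v x
    rw [norm_wv v x _ hP, hb]
    have h2 : Real.exp (2 * Real.log (α v) / 2) = α v := by
      rw [mul_div_cancel_left₀ _ two_ne_zero, Real.exp_log (α0 v)]
    rw [h2]
    have := th0 v
    have := bt0 v
    have := α0 v
    field_simp
  have hb1 : ∀ x ∈ Mz K F, x ≠ 0 →
      ‖cc x * pF (fun v => Cr (rv v) (α v) (c v) (c' v) (Q v)) (fun v => 2 * Real.log (α v))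
        (fun _ => 1) x‖ ≤ M ^ n * PP (th1 α c c') ^ (-(1 / 2) : ℝ) *
        (‖cc x‖ * ∏ v : InfinitePlace K, (1 + v x / b v) ^ (-(k : ℝ))) := by
    intro x _ _
    rw [norm_mul]
    have h3 : ‖pF (fun v => Cr (rv v) (α v) (c v) (c' v) (Q v)) (fun v => 2 * Real.log (α v))
        (fun _ => 1) x‖ ≤ M ^ n * (PP (th1 α c c') ^ (-(1 / 2) : ℝ) *
          ∏ v : InfinitePlace K, (1 + v x / b v) ^ (-(k : ℝ))) := by
      unfold pF
      rw [norm_prod]
      calc ∏ v : InfinitePlace K, ‖Cr (rv v) (α v) (c v) (c' v) (Q v)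
            (wv v x (fun v => 2 * Real.log (α v)) (fun _ => 1))‖ ≤
            ∏ v : InfinitePlace K, M * (th1 α c c' v ^ (-(dg (rv v) : ℝ) / 2) *
              (1 + v x / b v) ^ (-(k : ℝ))) := by
              refine Finset.prod_le_prod (fun v _ => norm_nonneg _) fun v _ => ?_
              rw [← hwv v x]
              exact hloc v _ (Rl_wv v x _ hP)
        _ = (∏ _v : InfinitePlace K, M) * (PP (th1 α c c') ^ (-(1 / 2) : ℝ) *
            ∏ v : InfinitePlace K, (1 + v x / b v) ^ (-(k : ℝ))) := by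
            rw [Finset.prod_mul_distrib, Finset.prod_mul_distrib, prod_dg _ th0]
        _ ≤ M ^ n * (PP (th1 α c c') ^ (-(1 / 2) : ℝ) *
            ∏ v : InfinitePlace K, (1 + v x / b v) ^ (-(k : ℝ))) := by
            refine mul_le_mul_of_nonneg_right hMn ?_
            refine mul_nonneg (by positivity) ?_
            refine Finset.prod_nonneg fun v _ => ?_
            have h4 : 0 ≤ v x / b v := div_nonneg (apply_nonneg v x) (b0 v).le
            positivity
    calc ‖cc x‖ * ‖pF (fun v => Cr (rv v) (α v) (c v) (c' v) (Q v))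
          (fun v => 2 * Real.log (α v)) (fun _ => 1) x‖ ≤
        ‖cc x‖ * (M ^ n * (PP (th1 α c c') ^ (-(1 / 2) : ℝ) *
          ∏ v : InfinitePlace K, (1 + v x / b v) ^ (-(k : ℝ)))) :=
          mul_le_mul_of_nonneg_left h3 (norm_nonneg _)
      _ = _ := by ring
  have hz := box_tsum hcard (Mz K F) (fun x => ‖cc x‖) (fun x => norm_nonneg _) hX b b0
    (N := k) (by omega) hCo.box
  have h2 := norm_tsum_le (Mz K F)
    (fun x => cc x * pF (fun v => Cr (rv v) (α v) (c v) (c' v) (Q v))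
      (fun v => 2 * Real.log (α v)) (fun _ => 1) x) _ _
    (fun x => ‖cc x‖ * ∏ v : InfinitePlace K, (1 + v x / b v) ^ (-(k : ℝ))) hb0 hb1 hz.1
  have hJ : PP b = PP (th1 α c c') / PP (bt α τ) / PP α := by
    unfold PP
    rw [← Finset.prod_div_distrib, ← Finset.prod_div_distrib, hb]
    exact Finset.prod_congr rfl fun v _ => by rw [div_pow, div_pow]
  have h4 := hz.2
  rw [hJ] at h4
  have h5 : 0 ≤ M ^ n * PP (th1 α c c') ^ (-(1 / 2) : ℝ) := by positivity
  have h3 := h2.trans (add_le_add_right (mul_le_mul_of_nonneg_left h4 h5) (w * (M ^ n * T)))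
  rw [h1, norm_mul, Complex.norm_real, Real.norm_eq_abs,
    abs_of_pos (by positivity)] at h3
  have h6 := final T0 PPα PPt PPb (Real.sqrt_pos.2 dK0) NH0 NF0 w0 hX
    (by positivity) (one_le_pow₀ (one_le_pow₀ one_le_two)) h3
  rw [hT] at h6
  exact h6

end Pool.Agent.H3.DF.PS
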