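import Pool.Agent.H23.DF.TargetsL
import Pool.Agent.H29.THC.CQ
import Pool.Agent.H29.THC.DFV
import Pool.Agent.H81.THC.CS

/-!
# (SV) the part of the modulus which divides the half differences is removed
-/

set_option autoImplicit false

open NumberField Complex
open scoped nonZeroDivisors

namespace Pool.Agent.H3.DF.SV

open Pool.Agent.H25.HK Pool.Agent.H23.LB Pool.Agent.H23.LC
open Pool.Agent.H29.TC (Gn LC cq dvs AC MC)
open Pool.Agent.H31.SX (ND LK)
open Pool.Agent.H81.THC (fi_mono fi_le)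
open Pool.Agent.H23.DM (lg5 cm FP)
open Pool.Agent.H23.DF

/-! ### The Moebius function -/

section mu

variable {K : Type} [Field K] [NumberField K]

open UniqueFactorizationMonoid in
/-- the Moebius function of a squarefree ideal -/
noncomputable def mu (g : Ideal (𝓞 K)) : ℂ := by
  classical
  exact (-1) ^ Multiset.card (normalizedFactors g)

lemma mu_norm (g : Ideal (𝓞 K)) : ‖mu g‖ ≤ 1 := by
  unfold mu
  rw [norm_pow, norm_neg, norm_one, one_pow]

lemma mu_top : mu (⊤ : Ideal (𝓞 K)) = 1 := by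
  unfold mu
  rw [← Ideal.one_eq_top, UniqueFactorizationMonoid.normalizedFactors_one, Multiset.card_zero,
    pow_zero]

lemma mu_mul {P c : Ideal (𝓞 K)} (hP : P.IsPrime) (hP0 : P ≠ ⊥) (hc : c ≠ ⊥) :
    mu (P * c) = -mu c := by
  classical
  unfold mu
  have h1 : Irreducible P := (Ideal.prime_of_isPrime hP0 hP).irreducible
  rw [UniqueFactorizationMonoid.normalizedFactors_mul hP0 hc,
    UniqueFactorizationMonoid.normalizedFactors_irreducible h1, Multiset.card_add,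
    Multiset.card_singleton, pow_add, pow_one]
  ring

/-- a squarefree ideal is not divisible by a square -/
lemma sq_not {f P : Ideal (𝓞 K)} (hf : f ≠ ⊥) (hr : f.radical = f) (hP : P.IsPrime) :
    ¬ f ≤ P * P := by
  intro h
  obtain ⟨d, hd⟩ := Ideal.dvd_iff_le.2 h
  have h1 : P * d ≤ f := by
    rw [← hr]
    intro t ht
    rw [Ideal.mem_radical_iff]
    refine ⟨2, ?_⟩
    have h2 : t ^ 2 ∈ (P * d) * (P * d) := by
      rw [pow_two]
      exact Ideal.mul_mem_mul ht ht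
    have h3 : (P * d) * (P * d) ≤ f := by
      have h4 : (P * d) * (P * d) = (P * P * d) * d := by ring
      rw [h4, ← hd]
      exact Ideal.mul_le_left
    exact h3 h2
  have hPd : P * d ≠ 0 := by
    intro h0
    apply hf
    rw [hd, mul_assoc, h0]
    exact mul_zero P
  have h5 : P * (P * d) = 1 * (P * d) := by
    rw [one_mul]
    refine le_antisymm Ideal.mul_le_right ?_
    rw [← mul_assoc, ← hd]
    exact h1
  have h6 := mul_right_cancel₀ hPd h5
  exact hP.ne_top (h6.trans Ideal.one_eq_top)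

/-- a prime ideal which does not contain `c` is prime to `c` -/
lemma cop_of {P c : Ideal (𝓞 K)} (hP : P.IsPrime) (hP0 : P ≠ ⊥) (h : ¬ c ≤ P) : P ⊔ c = ⊤ := by
  by_contra h1
  have h2 := (hP.isMaximal hP0).eq_of_le h1 le_sup_left
  exact h (le_sup_right.trans h2.symm.le)

omit [NumberField K] in
lemma mem_mul_iff {P c : Ideal (𝓞 K)} (h : P ⊔ c = ⊤) {a : 𝓞 K} (ha : a ∈ P) :
    a ∈ P * c ↔ a ∈ c := by
  rw [Ideal.mul_eq_inf_of_coprime h]
  exact ⟨fun h1 => h1.2, fun h1 => ⟨ha, h1⟩⟩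

/-- the sum of the Moebius function over the divisors which contain `a` -/
lemma mu_sum {f : Ideal (𝓞 K)} (hf : f ≠ ⊥) (hr : f.radical = f) (a : 𝓞 K)
    (D : Finset (Ideal (𝓞 K))) (hD : ∀ g, g ∈ D ↔ f ≤ g) [DecidablePred fun g : Ideal (𝓞 K) =>
      a ∈ g] [Decidable (f ⊔ Ideal.span {a} = ⊤)] :
    ∑ g ∈ D, mu g * (if a ∈ g then (1 : ℂ) else 0) =
      if f ⊔ Ideal.span {a} = ⊤ then 1 else 0 := by
  classical
  by_cases h : f ⊔ Ideal.span {a} = ⊤
  · rw [if_pos h, Finset.sum_eq_single ⊤]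
    · rw [mu_top, if_pos Submodule.mem_top, mul_one]
    · intro g hg hgt
      rw [if_neg, mul_zero]
      intro hag
      apply hgt
      rw [← top_le_iff, ← h]
      refine sup_le ((hD g).1 hg) ?_
      rw [Ideal.span_singleton_le_iff_mem]
      exact hag
    · intro h1
      exact absurd ((hD ⊤).2 le_top) h1
  · rw [if_neg h]
    obtain ⟨P, hPm, hPle⟩ := Ideal.exists_le_maximal _ h
    have hP := hPm.isPrime
    have hfP : f ≤ P := le_sup_left.trans hPle
    have haP : a ∈ P := hPle (Ideal.mem_sup_right (Ideal.mem_span_singleton_self a))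
    have hP0 : P ≠ ⊥ := fun h0 => hf (le_bot_iff.1 (h0 ▸ hfP))
    have hP0' : P ≠ 0 := hP0
    have hnd : ∀ c : Ideal (𝓞 K), f ≤ P * c → ¬ c ≤ P := by
      intro c hc hcP
      exact sq_not hf hr hP (hc.trans (Ideal.mul_mono_right hcP))
    have hne : ∀ g : Ideal (𝓞 K), f ≤ g → g ≠ ⊥ := fun g hg h0 => hf (le_bot_iff.1 (h0 ▸ hg))
    set φ : Ideal (𝓞 K) → Ideal (𝓞 K) := fun g =>
      if hg : ∃ c, g = P * c then hg.choose else P * g with hφ
    have hφ1 : ∀ c : Ideal (𝓞 K), φ (P * c) = c := by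
      intro c
      have hex : ∃ c', P * c = P * c' := ⟨c, rfl⟩
      have e1 : φ (P * c) = hex.choose := by
        rw [hφ]
        exact dif_pos hex
      rw [e1]
      exact (mul_left_cancel₀ hP0' hex.choose_spec).symm
    have hφ2 : ∀ g : Ideal (𝓞 K), ¬ g ≤ P → φ g = P * g := by
      intro g hg
      rw [hφ]
      refine dif_neg ?_
      rintro ⟨c, rfl⟩
      exact hg Ideal.mul_le_left
    refine Finset.sum_involution (fun g _ => φ g) ?_ ?_ ?_ ?_
    · intro g hg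
      have hfg := (hD g).1 hg
      by_cases hgP : g ≤ P
      · obtain ⟨c, rfl⟩ := Ideal.dvd_iff_le.2 hgP
        have hc := hnd c hfg
        have hc0 : c ≠ ⊥ := by
          rintro rfl
          exact hc bot_le
        simp only [hφ1, mu_mul hP hP0 hc0, mem_mul_iff (cop_of hP hP0 hc) haP]
        ring
      · simp only [hφ2 g hgP, mu_mul hP hP0 (hne g hfg), mem_mul_iff (cop_of hP hP0 hgP) haP]
        ring
    · intro g hg _ heq
      have hfg := (hD g).1 hg
      have hmu : mu (φ g) = -mu g := by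
        by_cases hgP : g ≤ P
        · obtain ⟨c, rfl⟩ := Ideal.dvd_iff_le.2 hgP
          have hc := hnd c hfg
          have hc0 : c ≠ ⊥ := by
            rintro rfl
            exact hc bot_le
          rw [hφ1, mu_mul hP hP0 hc0, neg_neg]
        · rw [hφ2 g hgP, mu_mul hP hP0 (hne g hfg)]
      have heq' : φ g = g := heq
      rw [heq'] at hmu
      have h0 : mu g = 0 := self_eq_neg.1 hmu
      unfold mu at h0
      exact pow_ne_zero _ (neg_ne_zero.2 one_ne_zero) h0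
    · intro g hg
      have hfg := (hD g).1 hg
      rw [hD]
      by_cases hgP : g ≤ P
      · obtain ⟨c, rfl⟩ := Ideal.dvd_iff_le.2 hgP
        rw [hφ1]
        exact hfg.trans Ideal.mul_le_right
      · rw [hφ2 g hgP, Ideal.mul_eq_inf_of_coprime (cop_of hP hP0 hgP)]
        exact le_inf hfP hfg
    · intro g hg
      have hfg := (hD g).1 hg
      by_cases hgP : g ≤ P
      · obtain ⟨c, rfl⟩ := Ideal.dvd_iff_le.2 hgP
        have hc := hnd c hfg
        simp only [hφ1, hφ2 c hc]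
      · simp only [hφ2 g hgP, hφ1]

end mu

/-! ### Lattices -/

section lat

variable {K : Type} [Field K] [NumberField K]

omit [NumberField K] in
lemma sm {I : Ideal (𝓞 K)} {N : FI K} {a : 𝓞 K} (ha : a ∈ I) {x : K} (hx : x ∈ N) :
    (a : K) * x ∈ (I : FI K) * N :=
  FractionalIdeal.mul_mem_mul (FractionalIdeal.mem_coeIdeal_of_mem _ ha) hx

omit [NumberField K] in
lemma sm1 {N : FI K} (a : 𝓞 K) {x : K} (hx : x ∈ N) : (a : K) * x ∈ N := by
  have h := sm (I := ⊤) (Submodule.mem_top : a ∈ (⊤ : Ideal (𝓞 K))) hx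
  rwa [FractionalIdeal.coeIdeal_top, one_mul] at h

omit [NumberField K] in
lemma ad {N : FI K} {x y : K} (hx : x ∈ N) (hy : y ∈ N) : x + y ∈ N :=
  (N : Submodule (𝓞 K) K).add_mem hx hy

omit [NumberField K] in
lemma sb {N : FI K} {x y : K} (hx : x ∈ N) (hy : y ∈ N) : x - y ∈ N :=
  (N : Submodule (𝓞 K) K).sub_mem hx hy

omit [NumberField K] in
/-- the intersection for coprime ideals -/
lemma cop_mem {F g : Ideal (𝓞 K)} (h : g ⊔ F = ⊤) {M : FI K} {z : K} (h1 : z ∈ (F : FI K) * M)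
    (h2 : z ∈ (g : FI K) * M) : z ∈ (F : FI K) * ((g : FI K) * M) := by
  have h3 : (1 : 𝓞 K) ∈ g ⊔ F := by
    rw [h]
    exact Submodule.mem_top
  obtain ⟨i, hi, j, hj, hij⟩ := Submodule.mem_sup.1 h3
  have e1 : z = (i : K) * z + (j : K) * z := by
    rw [← add_mul, ← map_add, hij, map_one, one_mul]
  rw [e1]
  refine ad ?_ (sm hj h2)
  have h4 := sm hi h1
  rwa [mul_left_comm] at h4

/-- half of an element -/
lemma half {l e : Ideal (𝓞 K)} (hl : l ≤ Ideal.span {(2 : 𝓞 K)}) {M : FI K} {δ : K}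
    (h : 2 * δ ∈ ((l * e : Ideal (𝓞 K)) : FI K) * M) : δ ∈ (e : FI K) * M := by
  have h1 : 2 * δ ∈ ((Ideal.span {(2 : 𝓞 K)} * e : Ideal (𝓞 K)) : FI K) * M :=
    fi_mono (Ideal.mul_mono_left hl) M h
  rw [FractionalIdeal.coeIdeal_mul, mul_assoc, FractionalIdeal.coeIdeal_span_singleton,
    FractionalIdeal.mem_singleton_mul] at h1
  obtain ⟨y, hy, h2⟩ := h1
  have h3 : algebraMap (𝓞 K) K 2 = 2 := map_ofNat _ 2
  rw [h3] at h2
  have h4 : δ = y := mul_left_cancel₀ two_ne_zero h2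
  rw [h4]
  exact hy

end lat

/-! ### Coprime ideals and the characters -/

section cop

variable {K : Type} [Field K] [NumberField K] {l k se s' : Ideal (𝓞 K)}

omit [NumberField K] in
lemma up {a b a' b' : Ideal (𝓞 K)} (h : a ⊔ b = ⊤) (ha : a ≤ a') (hb : b ≤ b') : a' ⊔ b' = ⊤ :=
  top_le_iff.1 (h.symm.le.trans (sup_le_sup ha hb))

lemma se_s' (hf : se * s' ≠ ⊥) (hr : (se * s').radical = se * s') : se ⊔ s' = ⊤ := by
  by_contra h
  obtain ⟨P, hPm, hPle⟩ := Ideal.exists_le_maximal _ h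
  exact sq_not hf hr hPm.isPrime
    (Ideal.mul_mono (le_sup_left.trans hPle) (le_sup_right.trans hPle))

lemma se_rad (hf : se * s' ≠ ⊥) (hr : (se * s').radical = se * s') : se.radical = se := by
  refine le_antisymm ?_ Ideal.le_radical
  intro t ht
  have h1 : (1 : 𝓞 K) ∈ se ⊔ s' := by
    rw [se_s' hf hr]
    exact Submodule.mem_top
  obtain ⟨a, ha, b, hb, hab⟩ := Submodule.mem_sup.1 h1
  have h2 : b * t ∈ se * s' := by
    rw [← hr, Ideal.radical_mul]
    exact ⟨Ideal.mul_mem_left _ _ ht, Ideal.le_radical (Ideal.mul_mem_right _ _ hb)⟩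
  have h3 : t = a * t + b * t := by
    rw [← add_mul, hab, one_mul]
  rw [h3]
  exact se.add_mem (Ideal.mul_mem_right _ _ ha) (Ideal.mul_le_left h2)

/-- the components of a character, with a transport -/
lemma sxt (hSX : F_SX) {a b c : Ideal (𝓞 K)} (hc : c = a * b) (ha : a ≠ ⊥) (hb : b ≠ ⊥)
    (hab : a ⊔ b = ⊤) (η : 𝓞 K ⧸ c → ℂ) (h : LC c η) :
    ∃ (η₁ : 𝓞 K ⧸ a → ℂ) (η₂ : 𝓞 K ⧸ b → ℂ), LC a η₁ ∧ LC b η₂ ∧
      ∀ Y : 𝓞 K, η (Ideal.Quotient.mk c Y) =
        η₁ (Ideal.Quotient.mk a Y) * η₂ (Ideal.Quotient.mk b Y) := by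
  subst hc
  exact hSX K a b ha hb hab η h

omit [NumberField K] in
/-- the absolute value of a character at a residue class -/
lemma conj_eq {f : Ideal (𝓞 K)} {η : 𝓞 K ⧸ f → ℂ} (h : MC η) (a : 𝓞 K)
    [Decidable (f ⊔ Ideal.span {a} = ⊤)] :
    η (Ideal.Quotient.mk f a) * (starRingEnd ℂ) (η (Ideal.Quotient.mk f a)) =
      if f ⊔ Ideal.span {a} = ⊤ then 1 else 0 := by
  by_cases hu : f ⊔ Ideal.span {a} = ⊤
  · rw [if_pos hu]
    have h1 : (1 : 𝓞 K) ∈ f ⊔ Ideal.span {a} := by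
      rw [hu]
      exact Submodule.mem_top
    obtain ⟨x, hx, y, hy, hxy⟩ := Submodule.mem_sup.1 h1
    obtain ⟨z, rfl⟩ := Ideal.mem_span_singleton'.1 hy
    have h2 : IsUnit (Ideal.Quotient.mk f a) := by
      refine IsUnit.of_mul_eq_one (Ideal.Quotient.mk f z) ?_
      rw [← map_mul, ← map_one (Ideal.Quotient.mk f), Ideal.Quotient.mk_eq_mk_iff_sub_mem]
      have h3 : a * z - 1 = -x := by
        linear_combination hxy
      rw [h3]
      exact f.neg_mem hx
    rw [mul_comm]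
    exact h.conj_mul h2
  · rw [if_neg hu, h.zero, zero_mul]
    intro h2
    apply hu
    obtain ⟨y, hy⟩ := h2.exists_right_inv
    obtain ⟨z, rfl⟩ := Ideal.Quotient.mk_surjective y
    rw [← map_mul, ← map_one (Ideal.Quotient.mk f), Ideal.Quotient.mk_eq_mk_iff_sub_mem] at hy
    rw [Ideal.eq_top_iff_one]
    have h3 : (1 : 𝓞 K) = -(a * z - 1) + z * a := by ring
    rw [h3]
    exact Submodule.add_mem_sup (f.neg_mem hy) (Ideal.mem_span_singleton'.2 ⟨z, rfl⟩)

omit [NumberField K] in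
/-- multipliers which are `1` modulo `F` and lie in `g` -/
lemma ex_al {F g : Ideal (𝓞 K)} (hg : g ≠ ⊥) (h : g ⊔ F = ⊤) :
    ∃ α : 𝓞 K, α ≠ 0 ∧ α ∈ g ∧ 1 - α ∈ F := by
  have h3 : (1 : 𝓞 K) ∈ g ⊔ F := by
    rw [h]
    exact Submodule.mem_top
  obtain ⟨i, hi, j, hj, hij⟩ := Submodule.mem_sup.1 h3
  by_cases h0 : i = 0
  · have h1 : F = ⊤ := by
      rw [Ideal.eq_top_iff_one]
      rw [h0, zero_add] at hij
      rwa [← hij]
    obtain ⟨α, hα, hα0⟩ := Submodule.exists_mem_ne_zero_of_ne_bot hg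
    refine ⟨α, hα0, hα, ?_⟩
    rw [h1]
    exact Submodule.mem_top
  · refine ⟨i, h0, hi, ?_⟩
    have h1 : 1 - i = j := by
      rw [← hij]
      ring
    rwa [h1]

lemma gn_mul {F g : Ideal (𝓞 K)} {M : FI K} {x₀ : K} (hx : Gn F M x₀) {α : 𝓞 K} (hα0 : α ≠ 0)
    (hα : α ∈ g) (h1 : 1 - α ∈ F) (h : g ⊔ F = ⊤) : Gn F ((g : FI K) * M) ((α : K) * x₀) := by
  have hα' : (α : K) ≠ 0 := by
    intro h0
    exact hα0 (by exact_mod_cast h0)
  have hal : ∀ {x : K}, x ∈ M → ((1 - α : 𝓞 K) : K) * x ∈ (F : FI K) * M := fun hx => sm h1 hx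
  refine ⟨sm hα hx.mem, mul_ne_zero hα' hx.ne, ?_, ?_⟩
  · intro y hy
    obtain ⟨a, ha0, ha⟩ := hx.gen y (fi_le g M hy)
    refine ⟨a, ha0, cop_mem h ?_ (sb hy (sm1 a (sm hα hx.mem)))⟩
    have e1 : y - (a : K) * ((α : K) * x₀) =
        (y - (a : K) * x₀) + (a : K) * (((1 - α : 𝓞 K) : K) * x₀) := by
      push_cast
      ring
    rw [e1]
    exact ad ha (sm1 a (hal hx.mem))
  · intro a j hj
    constructor
    · intro h2
      have h3 : ((a * α : 𝓞 K) : K) * x₀ ∈ (j : FI K) * M := by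
        have e1 : ((a * α : 𝓞 K) : K) * x₀ = (a : K) * ((α : K) * x₀) := by
          push_cast
          ring
        rw [e1]
        have h4 : (a : K) * ((α : K) * x₀) ∈ (g : FI K) * ((j : FI K) * M) := by
          rwa [mul_left_comm]
        exact fi_le g _ h4
      have h4 := (hx.iff _ j hj).1 h3
      have e2 : a = a * α + a * (1 - α) := by ring
      rw [e2]
      exact j.add_mem h4 (Ideal.mul_mem_left _ _ (hj h1))
    · intro h2
      exact sm h2 (sm hα hx.mem)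

end cop

/-! ### The theorem -/

section fam

variable {K : Type} [Field K] [NumberField K] {k se s' : Ideal (𝓞 K)}

omit [NumberField K] in
/-- the components of a family of characters -/
lemma fn_of {κ₀ : Ideal (𝓞 K)} {θ : 𝓞 K ⧸ k → ℂ} {ι : Type} {J : Finset ι}
    {η : ι → 𝓞 K ⧸ (se * s' * k) → ℂ} {γ : ι → 𝓞 K} {ηe : ι → 𝓞 K ⧸ se → ℂ}
    {ηh : ι → 𝓞 K ⧸ (s' * k) → ℂ} (hcop : se ⊔ s' * k = ⊤) (hFN : FN (se * s') k κ₀ θ J η γ)
    (he : ∀ j ∈ J, LC se (ηe j)) (hh : ∀ j ∈ J, LC (s' * k) (ηh j))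
    (hη : ∀ j ∈ J, ∀ Y : 𝓞 K, η j (Ideal.Quotient.mk (se * s' * k) Y) =
      ηe j (Ideal.Quotient.mk se Y) * ηh j (Ideal.Quotient.mk (s' * k) Y)) :
    FN s' k κ₀ θ J ηh γ := by
  have h3 : (1 : 𝓞 K) ∈ se ⊔ s' * k := by
    rw [hcop]
    exact Submodule.mem_top
  obtain ⟨u, hu, v, hv, huv⟩ := Submodule.mem_sup.1 h3
  have hone : ∀ j ∈ J, ∀ t ∈ se, η j (Ideal.Quotient.mk (se * s' * k) (1 + t)) =
      ηh j (Ideal.Quotient.mk (s' * k) (1 + t)) := by
    intro j hj t ht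
    have h1 : Ideal.Quotient.mk se (1 + t) = 1 := by
      rw [← map_one (Ideal.Quotient.mk se), Ideal.Quotient.mk_eq_mk_iff_sub_mem]
      have h2 : 1 + t - 1 = t := by ring
      rwa [h2]
    rw [hη j hj, h1, (he j hj).mc.one, one_mul]
  have hsh : ∀ t : 𝓞 K, Ideal.Quotient.mk (s' * k) (1 + t) =
      Ideal.Quotient.mk (s' * k) (1 + t * u) := by
    intro t
    rw [Ideal.Quotient.mk_eq_mk_iff_sub_mem]
    have h2 : 1 + t - (1 + t * u) = t * v := by
      linear_combination (-t) * huv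
    rw [h2]
    exact Ideal.mul_mem_left _ _ hv
  refine ⟨hFN.nd, hh, ?_, ?_⟩
  · intro j hj t ht
    have ht' : t * u ∈ se * s' ⊓ κ₀ := by
      refine ⟨?_, Ideal.mul_mem_right _ _ ht.2⟩
      rw [mul_comm t u]
      exact Ideal.mul_mem_mul hu ht.1
    have h1 := hFN.fq j hj (t * u) ht'
    rw [hone j hj (t * u) (Ideal.mul_mem_left _ _ hu), ← hsh t] at h1
    rw [h1]
    have h4 : Ideal.Quotient.mk k (t * u) = Ideal.Quotient.mk k t := by
      rw [Ideal.Quotient.mk_eq_mk_iff_sub_mem]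
      have h2 : t * u - t = -(t * v) := by
        linear_combination t * huv
      rw [h2]
      exact k.neg_mem (Ideal.mul_mem_left _ _ (Ideal.mul_le_right hv))
    rw [h4]
  · intro i hi j hj κ' b' hκ hb
    have h1 := hFN.eq i hi j hj (κ' * se) b' (Ideal.mul_le_left.trans hκ) (by
      rw [mul_assoc, hb]
      ring)
    rw [h1]
    constructor
    · intro h2 t ht
      have h4 := h2 (t * u) (Ideal.mul_mem_mul ht hu)
      rw [hone i hi _ (Ideal.mul_mem_left _ _ hu), hone j hj _ (Ideal.mul_mem_left _ _ hu),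
        ← hsh t] at h4
      exact h4
    · intro h2 t ht
      rw [hone i hi t (Ideal.mul_le_right ht), hone j hj t (Ideal.mul_le_right ht)]
      exact h2 t (Ideal.mul_le_left ht)

end fam

section main

variable {K : Type} [Field K] [NumberField K] {l k se s' : Ideal (𝓞 K)}

open scoped Classical in
/-- the identity for the coefficients of the midpoints -/
lemma main_id {M : FI K} {x₀ ρ : K} {η : 𝓞 K ⧸ (se * s' * k) → ℂ} {ηe : 𝓞 K ⧸ se → ℂ}
    {ηh : 𝓞 K ⧸ (s' * k) → ℂ} (hse : se ≠ ⊥) (hF0 : l * (se * s' * k) ≠ ⊥) (hM : M ≠ 0)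
    (hx : Gn (l * (se * s' * k)) M x₀)
    (hrad : se.radical = se) (hcop : se ⊔ l * (s' * k) = ⊤) (hev : l ≤ Ideal.span {(2 : 𝓞 K)})
    (hρ : ρ ∈ M) (he : MC ηe) (hη : ∀ Y : 𝓞 K, η (Ideal.Quotient.mk (se * s' * k) Y) =
      ηe (Ideal.Quotient.mk se Y) * ηh (Ideal.Quotient.mk (s' * k) Y))
    (α : Ideal (𝓞 K) → 𝓞 K)
    (hα : ∀ g, se ≤ g → α g ≠ 0 ∧ α g ∈ g ∧ 1 - α g ∈ l * (s' * k)) {δ : K}
    (hδ : 2 * δ ∈ ((l * se : Ideal (𝓞 K)) : FI K) * M) {u : K} (hu : u ∈ M) :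
    cm l k.radical M ρ δ (cq (se * s' * k) η M x₀) u =
      ∑ g ∈ dvs K se, mu g * (if u ∈ (g : FI K) * M then
        cm l k.radical ((g : FI K) * M) ((α g : K) * ρ) δ
          (cq (s' * k) ηh ((g : FI K) * M) ((α g : K) * x₀)) u else 0) := by
  have hf0 : se * s' * k ≠ ⊥ := fun h => hF0 (by rw [h]; exact mul_zero l)
  have hsk0 : s' * k ≠ ⊥ := fun h => hf0 (by rw [mul_assoc, h]; exact mul_zero se)
  have hfF : l * (se * s' * k) ≤ se * s' * k := Ideal.mul_le_right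
  have hse_le : l * (se * s' * k) ≤ se := by
    refine hfF.trans ?_
    rw [mul_assoc]
    exact Ideal.mul_le_left
  have hF'_le : l * (se * s' * k) ≤ l * (s' * k) := by
    refine Ideal.mul_mono_right ?_
    rw [mul_assoc]
    exact Ideal.mul_le_right
  have hsk_le : l * (se * s' * k) ≤ s' * k := hF'_le.trans Ideal.mul_le_right
  have hlr_le : l * (s' * k) ≤ l * k.radical :=
    Ideal.mul_mono_right (Ideal.mul_le_right.trans Ideal.le_radical)
  have hxf : Gn (se * s' * k) M x₀ :=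
    (Pool.Agent.H29.THC.pf_CQ K (l * (se * s' * k)) (fun _ => 0) M x₀ hF0 hM hx).2.2 _ hfF
  have hxF' : Gn (l * (s' * k)) M x₀ :=
    (Pool.Agent.H29.THC.pf_CQ K (l * (se * s' * k)) (fun _ => 0) M x₀ hF0 hM hx).2.2 _ hF'_le
  have hδ1 : δ ∈ (se : FI K) * M := half hev hδ
  have hδM : δ ∈ M := fi_le se M hδ1
  obtain ⟨a, -, ha⟩ := hx.gen u hu
  obtain ⟨b, -, hb⟩ := hx.gen (u + δ) (ad hu hδM)
  obtain ⟨c, -, hc⟩ := hx.gen (u - δ) (sb hu hδM)
  have hcq : ∀ (a : 𝓞 K) (x : K),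
      x - (a : K) * x₀ ∈ ((l * (se * s' * k) : Ideal (𝓞 K)) : FI K) * M →
      cq (se * s' * k) η M x₀ x =
        ηe (Ideal.Quotient.mk se a) * ηh (Ideal.Quotient.mk (s' * k) a) := by
    intro a x hax
    rw [(Pool.Agent.H29.THC.pf_CQ K (se * s' * k) η M x₀ hf0 hM hxf).1 a x (fi_mono hfF M hax),
      hη]
  have hba : Ideal.Quotient.mk se b = Ideal.Quotient.mk se a := by
    rw [Ideal.Quotient.mk_eq_mk_iff_sub_mem, ← hx.iff _ _ hse_le]
    have e1 : ((b - a : 𝓞 K) : K) * x₀ = δ - (u + δ - (b : K) * x₀) + (u - (a : K) * x₀) := by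
      push_cast
      ring
    rw [e1]
    exact ad (sb hδ1 (fi_mono hse_le M hb)) (fi_mono hse_le M ha)
  have hca : Ideal.Quotient.mk se c = Ideal.Quotient.mk se a := by
    rw [Ideal.Quotient.mk_eq_mk_iff_sub_mem, ← hx.iff _ _ hse_le]
    have e1 : ((c - a : 𝓞 K) : K) * x₀ = (u - (a : K) * x₀) - (u - δ - (c : K) * x₀) - δ := by
      push_cast
      ring
    rw [e1]
    exact sb (sb (fi_mono hse_le M ha) (fi_mono hse_le M hc)) hδ1
  have hmem : ∀ g, se ≤ g → (u ∈ (g : FI K) * M ↔ a ∈ g) := by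
    intro g hg
    rw [← hx.iff a g (hse_le.trans hg)]
    constructor
    · intro h
      have e1 : (a : K) * x₀ = u - (u - (a : K) * x₀) := by ring
      rw [e1]
      exact sb h (fi_mono (hse_le.trans hg) M ha)
    · intro h
      have e1 : u = (u - (a : K) * x₀) + (a : K) * x₀ := by ring
      rw [e1]
      exact ad (fi_mono (hse_le.trans hg) M ha) h
  have hterm : ∀ g ∈ dvs K se, mu g * (if u ∈ (g : FI K) * M then
        cm l k.radical ((g : FI K) * M) ((α g : K) * ρ) δ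
          (cq (s' * k) ηh ((g : FI K) * M) ((α g : K) * x₀)) u else 0) =
      mu g * (if a ∈ g then (1 : ℂ) else 0) * (ci K (l * k.radical) M (ρ + δ) u *
        (ηh (Ideal.Quotient.mk (s' * k) b) *
          (starRingEnd ℂ) (ηh (Ideal.Quotient.mk (s' * k) c)))) := by
    intro g hg
    have hg' : se ≤ g := (Pool.Agent.H29.THC.pf_DF K se hse g).1 hg
    have hmg := hmem g hg'
    by_cases hag : a ∈ g
    · have hug := hmg.2 hag
      rw [if_pos hug, if_pos hag, mul_one]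
      congr 1
      obtain ⟨hα0, hαg, hα1⟩ := hα g hg'
      have hgF : g ⊔ l * (s' * k) = ⊤ := up hcop hg' le_rfl
      have hgn : Gn (l * (s' * k)) ((g : FI K) * M) ((α g : K) * x₀) :=
        gn_mul hxF' hα0 hαg hα1 hgF
      have hg0 : g ≠ ⊥ := fun h => hse (le_bot_iff.1 (h ▸ hg'))
      have hgM : (g : FI K) * M ≠ 0 :=
        mul_ne_zero (FractionalIdeal.coeIdeal_ne_zero.2 hg0) hM
      have hF'0 : l * (s' * k) ≠ ⊥ := fun h => hF0 (le_bot_iff.1 (h ▸ hF'_le))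
      have hgn2 : Gn (s' * k) ((g : FI K) * M) ((α g : K) * x₀) :=
        (Pool.Agent.H29.THC.pf_CQ K (l * (s' * k)) (fun _ => 0) _ _ hF'0 hgM hgn).2.2 _
          Ideal.mul_le_right
      have hδg : δ ∈ (g : FI K) * M := fi_mono hg' M hδ1
      have hval : ∀ (b : 𝓞 K) (x : K), x ∈ (g : FI K) * M →
          x - (b : K) * x₀ ∈ ((l * (se * s' * k) : Ideal (𝓞 K)) : FI K) * M →
          cq (s' * k) ηh ((g : FI K) * M) ((α g : K) * x₀) x =
            ηh (Ideal.Quotient.mk (s' * k) b) := by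
        intro b x hxg hxb
        refine (Pool.Agent.H29.THC.pf_CQ K (s' * k) ηh _ _ hsk0 hgM hgn2).1 b x ?_
        refine cop_mem (up hgF le_rfl Ideal.mul_le_right) ?_ (sb hxg (sm1 b (sm hαg hx.mem)))
        have e1 : x - (b : K) * ((α g : K) * x₀) =
            (x - (b : K) * x₀) + (b : K) * (((1 - α g : 𝓞 K) : K) * x₀) := by
          push_cast
          ring
        rw [e1]
        exact ad (fi_mono hsk_le M hxb) (sm1 b (sm (Ideal.mul_le_right hα1) hx.mem))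
      unfold cm
      rw [hval b (u + δ) (ad hug hδg) hb, hval c (u - δ) (sb hug hδg) hc]
      congr 1
      have hiff : (u - ((α g : K) * ρ + δ) ∈
            ((l * k.radical : Ideal (𝓞 K)) : FI K) * ((g : FI K) * M)) ↔
          u - (ρ + δ) ∈ ((l * k.radical : Ideal (𝓞 K)) : FI K) * M := by
        have e2 : ((1 - α g : 𝓞 K) : K) * ρ ∈
            ((l * k.radical : Ideal (𝓞 K)) : FI K) * M := sm (hlr_le hα1) hρ
        constructor
        · intro h
          have h1 : u - ((α g : K) * ρ + δ) ∈ ((l * k.radical : Ideal (𝓞 K)) : FI K) * M := by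
            rw [mul_left_comm] at h
            exact fi_le g _ h
          have e1 : u - (ρ + δ) = u - ((α g : K) * ρ + δ) - ((1 - α g : 𝓞 K) : K) * ρ := by
            push_cast
            ring
          rw [e1]
          exact sb h1 e2
        · intro h
          refine cop_mem (up hgF le_rfl hlr_le) ?_ (sb hug (ad (sm hαg hρ) hδg))
          have e1 : u - ((α g : K) * ρ + δ) = u - (ρ + δ) + ((1 - α g : 𝓞 K) : K) * ρ := by
            push_cast
            ring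
          rw [e1]
          exact ad h e2
      unfold ci
      by_cases h : u - (ρ + δ) ∈ ((l * k.radical : Ideal (𝓞 K)) : FI K) * M
      · rw [if_pos h, if_pos (hiff.2 h)]
      · rw [if_neg h, if_neg fun h' => h (hiff.1 h')]
    · rw [if_neg hag, if_neg fun h => hag (hmg.1 h)]
      ring
  rw [Finset.sum_congr rfl hterm, ← Finset.sum_mul,
    mu_sum hse hrad a (dvs K se) (Pool.Agent.H29.THC.pf_DF K se hse), ← conj_eq he a]
  unfold cm
  rw [hcq b _ hb, hcq c _ hc, hba, hca, map_mul]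
  ring

/-- (SV) -/
theorem pf_SV (hSX : F_SX) : F_SV := by
  intro K _ _ l s k κ₀ se s' Y θ M x₀ ρ ι J η γ hSK hFP hkκ hFN hρ hs
  subst hs
  have hk0 := hSK.lk.k_ne
  have hs0 : se * s' ≠ ⊥ := fun h => hk0 (by rw [h]; exact zero_mul k)
  have hse0 : se ≠ ⊥ := fun h => hs0 (by rw [h]; exact zero_mul s')
  have hsk0 : s' * k ≠ ⊥ := fun h => hk0 (by rw [mul_assoc, h]; exact mul_zero se)
  have hF0 : l * (se * s' * k) ≠ ⊥ := mul_ne_zero hSK.lk.l_ne hk0
  have hle1 : se * s' * k ≤ se := by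
    rw [mul_assoc]
    exact Ideal.mul_le_left
  have hle2 : se * s' * k ≤ s' * k := by
    rw [mul_assoc]
    exact Ideal.mul_le_right
  have h1 : se ⊔ k = ⊤ := up hSK.cop Ideal.mul_le_left le_rfl
  have h2 : se ⊔ s' * k = ⊤ := by
    rw [Ideal.sup_mul_eq_of_coprime_left (se_s' hs0 hSK.sqf)]
    exact h1
  have h3 : se ⊔ l = ⊤ := by
    rw [sup_comm]
    exact up hSK.lk.cop le_rfl hle1
  have h4 : se ⊔ l * (s' * k) = ⊤ := by
    rw [Ideal.sup_mul_eq_of_coprime_left h3]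
    exact h2
  have hrad := se_rad hs0 hSK.sqf
  have hx : ∀ j, ∃ (η₁ : 𝓞 K ⧸ se → ℂ) (η₂ : 𝓞 K ⧸ (s' * k) → ℂ), j ∈ J → LC se η₁ ∧
      LC (s' * k) η₂ ∧ ∀ Y : 𝓞 K, η j (Ideal.Quotient.mk (se * s' * k) Y) =
        η₁ (Ideal.Quotient.mk se Y) * η₂ (Ideal.Quotient.mk (s' * k) Y) := by
    intro j
    by_cases hj : j ∈ J
    · obtain ⟨η₁, η₂, h5, h6, h7⟩ :=
        sxt hSX (mul_assoc se s' k) hse0 hsk0 h2 (η j) (hFN.lc j hj)
      exact ⟨η₁, η₂, fun _ => ⟨h5, h6, h7⟩⟩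
    · exact ⟨0, 0, fun h => absurd h hj⟩
  choose ηe ηh hη using hx
  have hα : ∀ g : Ideal (𝓞 K), ∃ α : 𝓞 K, se ≤ g → α ≠ 0 ∧ α ∈ g ∧ 1 - α ∈ l * (s' * k) := by
    intro g
    by_cases hg : se ≤ g
    · obtain ⟨α, h⟩ := ex_al (F := l * (s' * k)) (g := g)
        (fun h => hse0 (le_bot_iff.1 (h ▸ hg))) (up h4 hg le_rfl)
      exact ⟨α, fun _ => h⟩
    · exact ⟨0, fun h => absurd h hg⟩
  choose α hα using hα
  have hLK : LK l (s' * k) := ⟨hSK.lk.l_ne, hsk0, up hSK.lk.cop le_rfl hle2,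
    up hSK.lk.big le_rfl hle2⟩
  have hGn : Gn (l * (s' * k)) M x₀ :=
    (Pool.Agent.H29.THC.pf_CQ K (l * (se * s' * k)) (fun _ => 0) M x₀ hF0 hFP.M_ne
      hFP.gen).2.2 _ (Ideal.mul_mono_right hle2)
  refine ⟨ηh, fun g => (α g : K) * ρ, fun g => (α g : K) * x₀, mu,
    fn_of h2 hFN (fun j hj => (hη j hj).1) (fun j hj => (hη j hj).2.1)
      (fun j hj => (hη j hj).2.2), ⟨hLK, hFP.ev, hFP.M_ne, hGn⟩, mu_norm, ?_, ?_⟩
  · intro g f hgf
    have hg : se ≤ g := by
      rw [hgf]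
      exact Ideal.mul_le_left
    obtain ⟨hα0, hαg, hα1⟩ := hα g hg
    have hg0 : g ≠ ⊥ := fun h => hse0 (le_bot_iff.1 (h ▸ hg))
    have e1 : ∀ x ∈ M, (α g : K) * x - x ∈ ((l * (s' * k) : Ideal (𝓞 K)) : FI K) * M := by
      intro x hx
      have e2 : (α g : K) * x - x = ((-(1 - α g) : 𝓞 K) : K) * x := by
        push_cast
        ring
      rw [e2]
      exact sm (Ideal.neg_mem_iff _ |>.2 hα1) hx
    refine ⟨⟨hLK, hFP.ev, mul_ne_zero (FractionalIdeal.coeIdeal_ne_zero.2 hg0) hFP.M_ne,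
      gn_mul hGn hα0 hαg hα1 (up h4 hg le_rfl)⟩, sm hαg hρ, e1 ρ hρ, e1 x₀ hFP.gen.mem⟩
  · intro δ hδ u hu j hj
    exact main_id hse0 hF0 hFP.M_ne hFP.gen hrad h4 hFP.ev hρ (hη j hj).1.mc (hη j hj).2.2 α hα
      hδ hu

end main

end Pool.Agent.H3.DF.SV
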